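import Mathlib
import Pool.Agent.Q111.MaxDet

/-!
# A negative entry in the determinant-maximising matrix of a graph

The core has four vertices `0,1,2,3` and the edges `03` and `12`.  To this we attach vertices of
degree two: 78 vertices joined to `0` and `2`, 78 vertices joined to `1` and `3`, and 169 vertices
joined to `2` and `3`.  For `x = 1/4` the determinant-maximising matrix is rational, and its entry
at `(0,1)` is `-1/16`.
-/

namespace Pool.Agent.Results.MP_e7c87c_co.NegativeEntry

open Matrix Finset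

/-- The set `𝒜(G,x)`: positive definite real symmetric matrices with unit diagonal and
entry `x` on every edge of `G`.  (For real matrices `Matrix.PosDef` includes symmetry.) -/
def Feasible {V : Type} [Fintype V] (G : SimpleGraph V) (x : ℝ) (M : Matrix V V ℝ) : Prop :=
  M.PosDef ∧ (∀ v, M v v = 1) ∧ ∀ u v, G.Adj u v → M u v = x

/-- `A` is an element of `𝒜(G,x)` of maximal determinant. -/
def IsMaximiser {V : Type} [Fintype V] [DecidableEq V] (G : SimpleGraph V) (x : ℝ)
    (A : Matrix V V ℝ) : Prop :=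
  Feasible G x A ∧ ∀ M : Matrix V V ℝ, Feasible G x M → M.det ≤ A.det

/-- Numbers of attached vertices of the three types. -/
def cnt : Fin 3 → ℕ := ![78, 78, 169]

/-- The attached vertices. -/
abbrev W : Type := Σ k : Fin 3, Fin (cnt k)

/-- The vertex set: four core vertices and the attached vertices. -/
abbrev V : Type := Fin 4 ⊕ W

/-- Incidence between the types of attached vertices and the core. -/
def inc : Fin 3 → Fin 4 → Bool :=
  ![![true, false, true, false], ![false, true, false, true], ![false, false, true, true]]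

/-- Adjacency in the core: the two edges `03` and `12`. -/
def coreAdj : Fin 4 → Fin 4 → Bool :=
  ![![false, false, false, true], ![false, false, true, false],
    ![false, true, false, false], ![true, false, false, false]]

/-- Adjacency. -/
def adj : V → V → Bool
  | Sum.inl i, Sum.inl j => coreAdj i j
  | Sum.inl i, Sum.inr w => inc w.1 i
  | Sum.inr w, Sum.inl i => inc w.1 i
  | Sum.inr _, Sum.inr _ => false

/-- The graph. -/
def G : SimpleGraph V where
  Adj u v := adj u v = true
  symm := ⟨by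
    rintro (i | w) (j | w') h
    · revert i j; simp only [adj]; decide
    · exact h
    · exact h
    · exact h⟩
  loopless := ⟨by
    rintro (i | w) h
    · revert i; simp only [adj]; decide
    · simp [adj] at h⟩

/-! ### The matrix and its inverse -/

/-- Core block of the matrix. -/
noncomputable def sg : Fin 4 → Fin 4 → ℝ :=
  ![![1, -1/16, 5/8, 1/4], ![-1/16, 1, 1/4, 5/8], ![5/8, 1/4, 1, 3/4], ![1/4, 5/8, 3/4, 1]]

/-- Entries between attached vertices and the core. -/
noncomputable def al : Fin 3 → Fin 4 → ℝ :=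
  ![![1/4, 3/104, 1/4, 2/13], ![3/104, 1/4, 2/13, 1/4], ![1/8, 1/8, 1/4, 1/4]]

/-- Entries between different attached vertices. -/
noncomputable def ga : Fin 3 → Fin 3 → ℝ :=
  ![![1/13, 19/676, 3/52], ![19/676, 1/13, 3/52], ![3/52, 3/52, 1/14]]

/-- The matrix `A`. -/
noncomputable def A : Matrix V V ℝ
  | Sum.inl i, Sum.inl j => sg i j
  | Sum.inl i, Sum.inr w => al w.1 i
  | Sum.inr w, Sum.inl i => al w.1 i
  | Sum.inr w, Sum.inr w' => ga w.1 w'.1 + if w = w' then 1 - ga w.1 w.1 else 0

/-- Core block of the inverse. -/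
noncomputable def kc : Fin 4 → Fin 4 → ℝ :=
  ![![4, 0, 0, 1], ![0, 4, 1, 0], ![0, 1, 21/2, 0], ![1, 0, 0, 21/2]]

/-- Off-diagonal entries of the inverse at attached vertices. -/
noncomputable def mu : Fin 3 → Fin 4 → ℝ :=
  ![![-1/6, 0, -1/6, 0], ![0, -1/6, 0, -1/6], ![0, 0, -2/13, -2/13]]

/-- Diagonal entries of the inverse at attached vertices. -/
noncomputable def de : Fin 3 → ℝ := ![13/12, 13/12, 14/13]

/-- The inverse `K` of `A`. -/
noncomputable def K : Matrix V V ℝ
  | Sum.inl i, Sum.inl j => kc i j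
  | Sum.inl i, Sum.inr w => mu w.1 i
  | Sum.inr w, Sum.inl i => mu w.1 i
  | Sum.inr w, Sum.inr w' => if w = w' then de w.1 else 0

theorem sumW (f : Fin 3 → ℝ) : ∑ w : W, f w.1 = 78 * f 0 + 78 * f 1 + 169 * f 2 := by
  rw [Fintype.sum_sigma]
  simp only [Finset.sum_const, Finset.card_univ, Fintype.card_fin, Fin.sum_univ_three, nsmul_eq_mul]
  simp [cnt]

theorem K_mul_A : K * A = 1 := by
  ext u v
  rw [Matrix.mul_apply, Fintype.sum_sum_type]
  rcases u with i | w <;> rcases v with j | w'
  · simp only [K, A]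
    rw [sumW (fun k => mu k i * al k j), Fin.sum_univ_four]
    fin_cases i <;> fin_cases j <;>
      simp [kc, sg, mu, al] <;> norm_num
  · have h : (fun w : W => K (Sum.inl i) (Sum.inr w) * A (Sum.inr w) (Sum.inr w'))
        = fun w : W => mu w.1 i * ga w.1 w'.1 + if w = w' then mu w.1 i * (1 - ga w.1 w.1) else 0 := by
      funext w
      simp only [K, A]
      split_ifs <;> ring
    rw [h, Finset.sum_add_distrib, Finset.sum_ite_eq', sumW (fun k => mu k i * ga k w'.1)]
    simp only [Finset.mem_univ, if_true, K, A, Fin.sum_univ_four]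
    obtain ⟨k, a⟩ := w'
    fin_cases i <;> fin_cases k <;>
      simp [kc, ga, mu, al] <;> norm_num
  · have h : (fun w'' : W => K (Sum.inr w) (Sum.inr w'') * A (Sum.inr w'') (Sum.inl j))
        = fun w'' : W => if w = w'' then de w.1 * al w''.1 j else 0 := by
      funext w''
      simp only [K, A]
      split_ifs <;> simp
    rw [h, Finset.sum_ite_eq]
    simp only [Finset.mem_univ, if_true, K, A, Fin.sum_univ_four]
    obtain ⟨k, a⟩ := w
    fin_cases j <;> fin_cases k <;>
      simp [sg, de, mu, al] <;> norm_num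
  · have h : (fun w'' : W => K (Sum.inr w) (Sum.inr w'') * A (Sum.inr w'') (Sum.inr w'))
        = fun w'' : W => if w = w'' then
          de w.1 * (ga w''.1 w'.1 + if w'' = w' then 1 - ga w''.1 w''.1 else 0) else 0 := by
      funext w''
      simp only [K, A]
      split_ifs <;> simp
    rw [h, Finset.sum_ite_eq]
    simp only [Finset.mem_univ, if_true, K, A, Fin.sum_univ_four, Matrix.one_apply]
    have h2 : (Sum.inr w : V) = Sum.inr w' ↔ w = w' := Sum.inr_injective.eq_iff
    simp only [h2]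
    have h3 : ∀ k l : Fin 3, mu k 0 * al l 0 + mu k 1 * al l 1 + mu k 2 * al l 2 + mu k 3 * al l 3
        + de k * ga k l = 0 := by
      intro k l
      fin_cases k <;> fin_cases l <;> simp [de, mu, al, ga] <;> norm_num
    have h4 : ∀ k : Fin 3, de k * (1 - ga k k) = 1 := by
      intro k
      fin_cases k <;> simp [de, ga] <;> norm_num
    have h5 := h3 w.1 w'.1
    have h6 := h4 w.1
    split_ifs with hw
    · linear_combination h5 + h6
    · linear_combination h5

/-- The quadratic form of the core block of the inverse of the core block. -/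
noncomputable def qf (a b c d : ℝ) : ℝ :=
  2 * (a - c + d / 2) ^ 2 + 2 * (b + c / 2 - d) ^ 2 + 16 / 7 * (c ^ 2 - 3 / 2 * c * d + d ^ 2)

theorem qf_nonneg (a b c d : ℝ) : 0 ≤ qf a b c d := by
  unfold qf
  nlinarith [sq_nonneg (a - c + d / 2), sq_nonneg (b + c / 2 - d), sq_nonneg (c - 3 / 4 * d),
    sq_nonneg d]

theorem qf_eq_zero {a b c d : ℝ} (h : qf a b c d ≤ 0) : a = 0 ∧ b = 0 ∧ c = 0 ∧ d = 0 := by
  unfold qf at h
  have hd : d = 0 := by
    have : d ^ 2 ≤ 0 := by
      nlinarith [sq_nonneg (a - c + d / 2), sq_nonneg (b + c / 2 - d), sq_nonneg (c - 3 / 4 * d)]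
    exact pow_eq_zero_iff (two_ne_zero) |>.mp (le_antisymm this (sq_nonneg d))
  subst hd
  have hc : c = 0 := by
    have : c ^ 2 ≤ 0 := by
      nlinarith [sq_nonneg (a - c + 0 / 2), sq_nonneg (b + c / 2 - 0)]
    exact pow_eq_zero_iff (two_ne_zero) |>.mp (le_antisymm this (sq_nonneg c))
  subst hc
  have ha : a = 0 := by
    have : a ^ 2 ≤ 0 := by nlinarith [sq_nonneg b]
    exact pow_eq_zero_iff (two_ne_zero) |>.mp (le_antisymm this (sq_nonneg a))
  subst ha
  have hb : b = 0 := by
    have : b ^ 2 ≤ 0 := by nlinarith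
    exact pow_eq_zero_iff (two_ne_zero) |>.mp (le_antisymm this (sq_nonneg b))
  exact ⟨rfl, hb, rfl, rfl⟩

theorem sum_sq (k : Fin 3) (y : Fin (cnt k) → ℝ) (b : ℝ) :
    ∑ a, (y a - b) ^ 2 = ∑ a, y a ^ 2 - 2 * b * ∑ a, y a + cnt k * b ^ 2 := by
  have : ∀ a, (y a - b) ^ 2 = y a ^ 2 - 2 * b * y a + b ^ 2 := fun a => by ring
  simp only [this, Finset.sum_add_distrib, Finset.sum_sub_distrib, ← Finset.mul_sum]
  simp

/-- The quadratic form of `K`. -/
theorem K_form (x : V → ℝ) :
    ∑ u, x u * ∑ v, K u v * x v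
      = qf (x (Sum.inl 0)) (x (Sum.inl 1)) (x (Sum.inl 2)) (x (Sum.inl 3))
        + 13 / 12 * ∑ a : Fin (cnt 0), (x (Sum.inr ⟨0, a⟩) - 2 / 13 * (x (Sum.inl 0) + x (Sum.inl 2))) ^ 2
        + 13 / 12 * ∑ a : Fin (cnt 1), (x (Sum.inr ⟨1, a⟩) - 2 / 13 * (x (Sum.inl 1) + x (Sum.inl 3))) ^ 2
        + 14 / 13 * ∑ a : Fin (cnt 2), (x (Sum.inr ⟨2, a⟩) - 1 / 7 * (x (Sum.inl 2) + x (Sum.inl 3))) ^ 2 := by
  have h1 : ∀ i : Fin 4, ∑ v, K (Sum.inl i) v * x v
      = ∑ j, kc i j * x (Sum.inl j) + ∑ k, mu k i * ∑ a : Fin (cnt k), x (Sum.inr ⟨k, a⟩) := by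
    intro i
    rw [Fintype.sum_sum_type, Fintype.sum_sigma]
    simp only [K, Finset.mul_sum]
  have h2 : ∀ w : W, ∑ v, K (Sum.inr w) v * x v
      = ∑ j, mu w.1 j * x (Sum.inl j) + de w.1 * x (Sum.inr w) := by
    intro w
    rw [Fintype.sum_sum_type]
    simp only [K, ite_mul, zero_mul, Finset.sum_ite_eq, Finset.mem_univ, if_true]
  rw [Fintype.sum_sum_type, Fintype.sum_sigma]
  simp only [h1, h2]
  rw [sum_sq, sum_sq, sum_sq]
  have h3 : ∀ k : Fin 3, ∑ a : Fin (cnt k), x (Sum.inr ⟨k, a⟩) *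
      (∑ j, mu k j * x (Sum.inl j) + de k * x (Sum.inr ⟨k, a⟩))
      = (∑ j, mu k j * x (Sum.inl j)) * ∑ a : Fin (cnt k), x (Sum.inr ⟨k, a⟩)
        + de k * ∑ a : Fin (cnt k), x (Sum.inr ⟨k, a⟩) ^ 2 := by
    intro k
    rw [Finset.mul_sum, Finset.mul_sum, ← Finset.sum_add_distrib]
    refine Finset.sum_congr rfl fun a _ => ?_
    ring
  simp only [h3]
  simp only [Fin.sum_univ_three, Fin.sum_univ_four]
  generalize (∑ a : Fin (cnt 0), x (Sum.inr ⟨0, a⟩)) = T0
  generalize (∑ a : Fin (cnt 1), x (Sum.inr ⟨1, a⟩)) = T1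
  generalize (∑ a : Fin (cnt 2), x (Sum.inr ⟨2, a⟩)) = T2
  generalize (∑ a : Fin (cnt 0), x (Sum.inr ⟨0, a⟩) ^ 2) = Q0
  generalize (∑ a : Fin (cnt 1), x (Sum.inr ⟨1, a⟩) ^ 2) = Q1
  generalize (∑ a : Fin (cnt 2), x (Sum.inr ⟨2, a⟩) ^ 2) = Q2
  generalize x (Sum.inl 0) = a0
  generalize x (Sum.inl 1) = a1
  generalize x (Sum.inl 2) = a2
  generalize x (Sum.inl 3) = a3
  simp [kc, mu, de, cnt, qf]
  ring

theorem K_symm (u v : V) : K u v = K v u := by
  rcases u with i | w <;> rcases v with j | w'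
  · simp only [K]; fin_cases i <;> fin_cases j <;> simp [kc]
  · rfl
  · rfl
  · simp only [K]
    by_cases h : w = w'
    · subst h; rfl
    · rw [if_neg h, if_neg (Ne.symm h)]

theorem K_posDef : K.PosDef := by
  apply Matrix.PosDef.of_dotProduct_mulVec_pos
  · ext u v
    simp only [Matrix.conjTranspose_apply, star_trivial]
    exact K_symm v u
  · intro x hx
    have hform : star x ⬝ᵥ (K *ᵥ x) = ∑ u, x u * ∑ v, K u v * x v := by
      simp [dotProduct, mulVec]
    rw [hform, K_form]
    have q0 := qf_nonneg (x (Sum.inl 0)) (x (Sum.inl 1)) (x (Sum.inl 2)) (x (Sum.inl 3))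
    have s0 : 0 ≤ ∑ a : Fin (cnt 0),
        (x (Sum.inr ⟨0, a⟩) - 2 / 13 * (x (Sum.inl 0) + x (Sum.inl 2))) ^ 2 :=
      Finset.sum_nonneg fun a _ => sq_nonneg _
    have s1 : 0 ≤ ∑ a : Fin (cnt 1),
        (x (Sum.inr ⟨1, a⟩) - 2 / 13 * (x (Sum.inl 1) + x (Sum.inl 3))) ^ 2 :=
      Finset.sum_nonneg fun a _ => sq_nonneg _
    have s2 : 0 ≤ ∑ a : Fin (cnt 2),
        (x (Sum.inr ⟨2, a⟩) - 1 / 7 * (x (Sum.inl 2) + x (Sum.inl 3))) ^ 2 :=
      Finset.sum_nonneg fun a _ => sq_nonneg _
    by_contra hcon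
    push Not at hcon
    obtain ⟨h0, h1, h2, h3⟩ := qf_eq_zero (a := x (Sum.inl 0)) (b := x (Sum.inl 1))
      (c := x (Sum.inl 2)) (d := x (Sum.inl 3)) (by linarith)
    have z0 : ∑ a : Fin (cnt 0),
        (x (Sum.inr ⟨0, a⟩) - 2 / 13 * (x (Sum.inl 0) + x (Sum.inl 2))) ^ 2 = 0 := by linarith
    have z1 : ∑ a : Fin (cnt 1),
        (x (Sum.inr ⟨1, a⟩) - 2 / 13 * (x (Sum.inl 1) + x (Sum.inl 3))) ^ 2 = 0 := by linarith
    have z2 : ∑ a : Fin (cnt 2),
        (x (Sum.inr ⟨2, a⟩) - 1 / 7 * (x (Sum.inl 2) + x (Sum.inl 3))) ^ 2 = 0 := by linarith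
    rw [Finset.sum_eq_zero_iff_of_nonneg (fun a _ => sq_nonneg _)] at z0 z1 z2
    apply hx
    funext u
    rcases u with i | ⟨k, a⟩
    · fin_cases i
      · exact h0
      · exact h1
      · exact h2
      · exact h3
    · fin_cases k
      · have := z0 a (Finset.mem_univ a)
        rw [h0, h2] at this
        have := pow_eq_zero_iff (two_ne_zero) |>.mp this
        simpa using this
      · have := z1 a (Finset.mem_univ a)
        rw [h1, h3] at this
        have := pow_eq_zero_iff (two_ne_zero) |>.mp this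
        simpa using this
      · have := z2 a (Finset.mem_univ a)
        rw [h2, h3] at this
        have := pow_eq_zero_iff (two_ne_zero) |>.mp this
        simpa using this

theorem A_posDef : A.PosDef := by
  have h : K⁻¹ = A := Matrix.inv_eq_right_inv K_mul_A
  rw [← h]
  exact K_posDef.inv

theorem A_feasible : Feasible G (1 / 4) A := by
  refine ⟨A_posDef, ?_, ?_⟩
  · rintro (i | w)
    · simp only [A]; fin_cases i <;> simp [sg]
    · simp [A]
  · rintro (i | w) (j | w') h
    · have h' : coreAdj i j = true := h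
      simp only [A]
      revert h'
      fin_cases i <;> fin_cases j <;> simp [coreAdj, sg]
    · have h' : inc w'.1 i = true := h
      simp only [A]
      obtain ⟨k, a⟩ := w'
      revert h'
      fin_cases i <;> fin_cases k <;> simp [inc, al]
    · have h' : inc w.1 j = true := h
      simp only [A]
      obtain ⟨k, a⟩ := w
      revert h'
      fin_cases j <;> fin_cases k <;> simp [inc, al]
    · exact absurd h (by simp [G, adj])

/-- `K` vanishes at distinct nonadjacent pairs. -/
theorem K_zero (u v : V) (huv : u ≠ v) (h : ¬ G.Adj u v) : K u v = 0 := by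
  rcases u with i | w <;> rcases v with j | w'
  · have h' : ¬ coreAdj i j = true := h
    have hij : i ≠ j := fun e => huv (by rw [e])
    simp only [K]
    revert h' hij
    fin_cases i <;> fin_cases j <;> simp [coreAdj, kc]
  · have h' : ¬ inc w'.1 i = true := h
    simp only [K]
    obtain ⟨k, a⟩ := w'
    revert h'
    fin_cases i <;> fin_cases k <;> simp [inc, mu]
  · have h' : ¬ inc w.1 j = true := h
    simp only [K]
    obtain ⟨k, a⟩ := w
    revert h'
    fin_cases j <;> fin_cases k <;> simp [inc, mu]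
  · simp only [K]
    rw [if_neg]
    intro e
    exact huv (by rw [e])

theorem trace_eq {M : Matrix V V ℝ} (hM : Feasible G (1 / 4) M) :
    (K * M).trace = Fintype.card V := by
  have hA : (K * A).trace = Fintype.card V := by rw [K_mul_A, Matrix.trace_one]
  rw [← hA]
  simp only [Matrix.trace, Matrix.diag_apply, Matrix.mul_apply]
  refine Finset.sum_congr rfl fun u _ => Finset.sum_congr rfl fun v _ => ?_
  by_cases huv : u = v
  · subst huv
    rw [hM.2.1, A_feasible.2.1]
  · by_cases h : G.Adj u v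
    · rw [hM.2.2 v u h.symm, A_feasible.2.2 v u h.symm]
    · rw [K_zero u v huv h, zero_mul, zero_mul]

theorem A_isMaximiser : IsMaximiser G (1 / 4) A :=
  ⟨A_feasible, fun M hM =>
    (Q111.MaxDet.det_le_of_trace K A M K_posDef K_mul_A hM.1.posSemidef (trace_eq hM)).1⟩

theorem A_unique (B : Matrix V V ℝ) (hB : IsMaximiser G (1 / 4) B) : B = A := by
  refine (Q111.MaxDet.det_le_of_trace K A B K_posDef K_mul_A hB.1.1.posSemidef (trace_eq hB.1)).2 ?_
  exact le_antisymm (A_isMaximiser.2 B hB.1) (hB.2 A A_feasible)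

theorem G_connected : G.Connected := by
  have r2 : ∀ v : V, G.Reachable v (Sum.inl 2) := by
    have e02 : ∀ a : Fin (cnt 0), G.Adj (Sum.inl 0) (Sum.inr ⟨0, a⟩) := fun a => rfl
    have h0 : G.Reachable (Sum.inl 0) (Sum.inl 2) := by
      have a : Fin (cnt 0) := ⟨0, by simp [cnt]⟩
      have e1 : G.Adj (Sum.inl 0) (Sum.inr ⟨0, a⟩) := rfl
      have e2 : G.Adj (Sum.inr ⟨0, a⟩) (Sum.inl 2) := rfl
      exact e1.reachable.trans e2.reachable
    have h1 : G.Reachable (Sum.inl 1) (Sum.inl 2) := by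
      have e1 : G.Adj (Sum.inl 1) (Sum.inl 2) := rfl
      exact e1.reachable
    have h3 : G.Reachable (Sum.inl 3) (Sum.inl 2) := by
      have e1 : G.Adj (Sum.inl 3) (Sum.inl 0) := rfl
      exact e1.reachable.trans h0
    rintro (i | ⟨k, a⟩)
    · fin_cases i
      · exact h0
      · exact h1
      · exact SimpleGraph.Reachable.refl _
      · exact h3
    · fin_cases k
      · have e : G.Adj (Sum.inr ⟨0, a⟩) (Sum.inl 2) := rfl
        exact e.reachable
      · have e : G.Adj (Sum.inr ⟨1, a⟩) (Sum.inl 1) := rfl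
        exact e.reachable.trans h1
      · have e : G.Adj (Sum.inr ⟨2, a⟩) (Sum.inl 2) := rfl
        exact e.reachable
  have : Nonempty V := ⟨Sum.inl 0⟩
  exact ⟨fun u v => (r2 u).trans (r2 v).symm⟩

/-- **Disproof of Q1 and of Q2.**  There are a finite connected graph `G`, a value `x` in `(0,1)`
and vertices `u`, `v` such that the (existing and unique) matrix of maximal determinant in
`𝒜(G,x)` has a negative entry at `(u,v)`. -/
theorem result :
    ∃ (V : Type) (_ : Fintype V) (_ : DecidableEq V) (G : SimpleGraph V) (x : ℝ)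
      (A : Matrix V V ℝ) (u v : V),
      G.Connected ∧ 0 < x ∧ x < 1 ∧ IsMaximiser G x A ∧
      (∀ B : Matrix V V ℝ, IsMaximiser G x B → B = A) ∧ A u v < 0 := by
  refine ⟨V, inferInstance, inferInstance, G, 1 / 4, A, Sum.inl 0, Sum.inl 1, G_connected,
    by norm_num, by norm_num, A_isMaximiser, A_unique, ?_⟩
  simp only [A, sg]
  norm_num

end Pool.Agent.Results.MP_e7c87c_co.NegativeEntry
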